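import Pool.Agent.Q119.AXI.Dt

/-!
# Project AXI of helper67: `StmAlg → StmEqC → StmBar`
-/

set_option autoImplicit false

open MeasureTheory Set Metric Filter Topology
open scoped ContDiff ENNReal NNReal
open H459R3.NS Pool.Agent.W268.NS Pool.Agent.Q67.VD Pool.Agent.Q67.AXI
open Pool.Agent.Q85.CC Pool.Agent.Q85.CL Pool.Agent.TH305.AX
open Pool.Agent.W583.MD

namespace Pool.Agent.Q119.AXI

/-! ### The cylinder -/

theorem cont_sg : Continuous sg := by
  have h : sg = fun x : V => x 0 ^ 2 + x 1 ^ 2 := rfl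
  rw [h]
  fun_prop

theorem cy_compact (c r h : ℝ) (hr : 0 < r) (hh : 0 < h) : IsCompact (Cy c r h) := by
  refine Metric.isCompact_of_isClosed_isBounded ?_ ?_
  · have h1 : IsClosed {x : V | sg x ≤ r ^ 2} := isClosed_le cont_sg continuous_const
    have h2 : IsClosed {x : V | |x 2 - c| ≤ h} :=
      isClosed_le (by fun_prop) continuous_const
    exact h1.inter h2
  · refine (Metric.isBounded_closedBall (x := (0 : V)) (r := r + |c| + h)).subset ?_
    intro x hx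
    obtain ⟨h1, h2⟩ := hx
    have hc := abs_nonneg c
    have h1' : x 0 ^ 2 + x 1 ^ 2 ≤ r ^ 2 := h1
    rw [mem_closedBall_zero_iff, pi_norm_le_iff_of_nonneg (by positivity)]
    have a0 : |x 0| ≤ r := abs_le_of_sq_le_sq (by nlinarith [sq_nonneg (x 1)]) hr.le
    have a1 : |x 1| ≤ r := abs_le_of_sq_le_sq (by nlinarith [sq_nonneg (x 0)]) hr.le
    have a2 : |x 2| ≤ |c| + h := by
      calc |x 2| = |(x 2 - c) + c| := by ring_nf
        _ ≤ |x 2 - c| + |c| := abs_add_le _ _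
        _ ≤ |c| + h := by linarith
    intro i
    rw [Real.norm_eq_abs]
    fin_cases i
    · exact a0.trans (by linarith)
    · exact a1.trans (by linarith)
    · exact a2.trans (by linarith)

theorem seg_mem {c r h : ℝ} {x : V} (hx : x ∈ Cy c r h) {l : ℝ} (h0 : 0 ≤ l) (h1 : l ≤ 1) :
    (![l * x 0, l * x 1, x 2] : V) ∈ Cy c r h := by
  obtain ⟨h3, h4⟩ := hx
  have h3' : x 0 ^ 2 + x 1 ^ 2 ≤ r ^ 2 := h3
  refine ⟨?_, ?_⟩
  · show (l * x 0) ^ 2 + (l * x 1) ^ 2 ≤ r ^ 2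
    have hl : l ^ 2 ≤ 1 := by nlinarith
    have h5 : 0 ≤ x 0 ^ 2 + x 1 ^ 2 := by positivity
    nlinarith
  · exact h4

/-- `WW` is bounded on compact time intervals in the cylinder -/
theorem ww_bdd {T E c R H : ℝ} {u : ℝ → V → V} {p : ℝ → V → ℝ} (hu : AxL T E c R H u p)
    {r h T₁ T' : ℝ} (hr : 0 < r) (hh : 0 < h) (hT₁ : 0 < T₁) (hT' : T' < T) :
    ∃ B : ℝ, ∀ t ∈ Icc T₁ T', ∀ x ∈ Cy c r h, |WW (u t) x| ≤ B := by
  have hsm := hu.smooth_u
  have hi : ∀ i : Fin 3, ContDiffOn ℝ ∞ (fun z : ℝ × V => u z.1 z.2 i) (Ioo 0 T ×ˢ univ) :=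
    fun i => (contDiffOn_pi.1 hsm) i
  have hc0 := cont_pd (F := fun t x => u t x 1) (hi 1) 0
  have hc1 := cont_pd (F := fun t x => u t x 0) (hi 0) 1
  have hc : ContinuousOn (fun z : ℝ × V => pd 0 (fun y => u z.1 y 1) z.2
      - pd 1 (fun y => u z.1 y 0) z.2) (Ioo 0 T ×ˢ univ) := hc0.sub hc1
  have hsub : Icc T₁ T' ×ˢ Cy c r h ⊆ Ioo 0 T ×ˢ (univ : Set V) :=
    prod_mono (fun s hs => ⟨hT₁.trans_le hs.1, hs.2.trans_lt hT'⟩) (subset_univ _)
  obtain ⟨B, hB⟩ := (isCompact_Icc.prod (cy_compact c r h hr hh)).exists_bound_of_continuousOn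
    (hc.mono hsub)
  refine ⟨B, fun t ht x hx => ?_⟩
  have key : ∀ l ∈ Set.uIoc (0 : ℝ) 1, ‖l * (pd 0 (fun z => u t z 1) ![l * x 0, l * x 1, x 2]
      - pd 1 (fun z => u t z 0) ![l * x 0, l * x 1, x 2])‖ ≤ B := by
    intro l hl
    rw [uIoc_of_le zero_le_one] at hl
    have h1 := hB (t, ![l * x 0, l * x 1, x 2]) ⟨ht, seg_mem hx hl.1.le hl.2⟩
    rw [norm_mul, Real.norm_eq_abs l, abs_of_pos hl.1]
    exact (mul_le_of_le_one_left (norm_nonneg _) hl.2).trans h1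
  have h3 := intervalIntegral.norm_integral_le_of_norm_le_const key
  have e : WW (u t) x = ∫ l in (0 : ℝ)..1, l * (pd 0 (fun z => u t z 1)
      ![l * x 0, l * x 1, x 2] - pd 1 (fun z => u t z 0) ![l * x 0, l * x 1, x 2]) := rfl
  rw [e, ← Real.norm_eq_abs]
  simpa using h3

/-! ### Derivatives of functions of `sg` -/

theorem hd_sg (x : V) : HasFDerivAt sg
    ((2 * x 0) • (ContinuousLinearMap.proj (R := ℝ) (φ := fun _ : Fin 3 => ℝ) 0)
      + (2 * x 1) • (ContinuousLinearMap.proj (R := ℝ) (φ := fun _ : Fin 3 => ℝ) 1)) x := by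
  have h0 : HasFDerivAt (fun y : V => y 0)
      (ContinuousLinearMap.proj (R := ℝ) (φ := fun _ : Fin 3 => ℝ) 0) x :=
    (ContinuousLinearMap.proj (R := ℝ) (φ := fun _ : Fin 3 => ℝ) 0).hasFDerivAt
  have h1 : HasFDerivAt (fun y : V => y 1)
      (ContinuousLinearMap.proj (R := ℝ) (φ := fun _ : Fin 3 => ℝ) 1) x :=
    (ContinuousLinearMap.proj (R := ℝ) (φ := fun _ : Fin 3 => ℝ) 1).hasFDerivAt
  have h2 := (h0.pow 2).add (h1.pow 2)
  refine h2.congr_fderiv ?_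
  ext v
  simp

theorem sm_sg : ContDiff ℝ ∞ sg := by
  have h : sg = fun x : V => x 0 ^ 2 + x 1 ^ 2 := rfl
  rw [h]
  fun_prop

/-- the coefficient -/
def cj (j : Fin 3) (x : V) : ℝ := if j = 0 then 2 * x 0 else if j = 1 then 2 * x 1 else 0

theorem pd_comp_sg {k : ℝ → ℝ} {k' : ℝ} {x : V} (hk : HasDerivAt k k' (sg x)) (j : Fin 3) :
    pd j (fun y => k (sg y)) x = cj j x * k' := by
  have h1 := hk.comp_hasFDerivAt x (hd_sg x)
  unfold pd
  have h2 : fderiv ℝ (fun y => k (sg y)) x = _ := h1.fderiv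
  rw [h2]
  unfold cj
  fin_cases j <;> simp <;> ring

theorem pd2_comp_sg {k k1 : ℝ → ℝ} {k2 a b : ℝ} {x : V} (hx : sg x ∈ Ioo a b)
    (hk : ∀ s ∈ Ioo a b, HasDerivAt k (k1 s) s) (hk1 : HasDerivAt k1 k2 (sg x)) (j : Fin 3) :
    pd j (pd j (fun y => k (sg y))) x
      = (if j = 2 then 0 else 2) * k1 (sg x) + cj j x ^ 2 * k2 := by
  have hev : pd j (fun y => k (sg y)) =ᶠ[𝓝 x] fun y => cj j y * k1 (sg y) := by
    have h1 : ∀ᶠ y in 𝓝 x, sg y ∈ Ioo a b :=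
      cont_sg.continuousAt.eventually (Ioo_mem_nhds hx.1 hx.2)
    filter_upwards [h1] with y hy
    exact pd_comp_sg (hk _ hy) j
  rw [Pool.Agent.W349.MF.pd_congr' hev j]
  have h1 := hk1.comp_hasFDerivAt x (hd_sg x)
  have h0 : HasFDerivAt (fun y : V => y 0)
      (ContinuousLinearMap.proj (R := ℝ) (φ := fun _ : Fin 3 => ℝ) 0) x :=
    (ContinuousLinearMap.proj (R := ℝ) (φ := fun _ : Fin 3 => ℝ) 0).hasFDerivAt
  have h0' : HasFDerivAt (fun y : V => y 1)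
      (ContinuousLinearMap.proj (R := ℝ) (φ := fun _ : Fin 3 => ℝ) 1) x :=
    (ContinuousLinearMap.proj (R := ℝ) (φ := fun _ : Fin 3 => ℝ) 1).hasFDerivAt
  unfold pd cj
  fin_cases j
  · have h2 := (h0.const_mul 2).mul h1
    have h3 : fderiv ℝ (fun y : V => 2 * y 0 * k1 (sg y)) x = _ := h2.fderiv
    simp only [Fin.zero_eta, if_true, Fin.isValue, h3]
    simp
    ring
  · have h2 := (h0'.const_mul 2).mul h1
    have h3 : fderiv ℝ (fun y : V => 2 * y 1 * k1 (sg y)) x = _ := h2.fderiv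
    simp only [Fin.mk_one, Fin.isValue, one_ne_zero, if_false, if_true, h3]
    simp
    ring
  · simp

/-! ### The comparison -/

theorem stmBar (hA : StmAlg) (hE : StmEqC) : StmBar := by
  intro T E c R H r h T₁ T₂ u p κ κt κs κss hu hr hrR hh hhH hT₁ hT12 hT2 hκc hκd hκ2 hκ0 hκδ
    hbd hini hdiff t₁ ht₁ x₁ hx₁ hs₁
  by_contra hcon
  push Not at hcon
  -- the time is later
  have hlt : T₁ < t₁ := by
    rcases ht₁.1.lt_or_eq with h1 | h1
    · exact h1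
    · exfalso
      rw [← h1] at hcon
      exact absurd (hini x₁ hx₁ hs₁) (not_le.2 hcon)
  have hT' : t₁ < T := ht₁.2.trans_le hT2
  -- the sign
  obtain ⟨σ, hσ, hσc⟩ : ∃ σ : ℝ, (σ = 1 ∨ σ = -1) ∧ σ * circ (u t₁) x₁ = |circ (u t₁) x₁| := by
    rcases le_total 0 (circ (u t₁) x₁) with h1 | h1
    · exact ⟨1, Or.inl rfl, by rw [abs_of_nonneg h1, one_mul]⟩
    · exact ⟨-1, Or.inr rfl, by rw [abs_of_nonpos h1]; ring⟩
  have hσ2 : σ * σ = 1 := by rcases hσ with h1 | h1 <;> rw [h1] <;> norm_num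
  have hσa : ∀ a : ℝ, σ * a ≤ |a| := by
    intro a
    rcases hσ with h1 | h1
    · rw [h1, one_mul]; exact le_abs_self a
    · rw [h1, neg_one_mul]; exact neg_le_abs a
  obtain ⟨B, hB⟩ := ww_bdd hu (r := r) (h := h) hr hh hT₁ hT'
  obtain ⟨δ, hδ, hδB⟩ := hκδ t₁ ⟨hlt, ht₁.2⟩ B
  obtain ⟨w, hw⟩ : ∃ w : ℝ × V → ℝ, w = fun z => σ * circ (u z.1) z.2 - κ z.1 (sg z.2) := ⟨_, rfl⟩
  have hsl : ∀ t ∈ Ioo 0 T, ContDiff ℝ ∞ (u t) := by
    intro t ht
    refine contDiff_pi.2 fun i => ?_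
    exact slice (F := fun t x => u t x i) ((contDiffOn_pi.1 hu.smooth_u) i) ht
  have hIcc : ∀ t ∈ Icc T₁ t₁, t ∈ Ioo 0 T := fun t ht => ⟨hT₁.trans_le ht.1, ht.2.trans_lt hT'⟩
  -- near the axis
  have hnear : ∀ t ∈ Icc T₁ t₁, ∀ x ∈ Cy c r h, 0 < sg x → sg x < δ → w (t, x) ≤ 0 := by
    intro t ht x hx hsx hsd
    have h1 := ((hA (u t) (hsl t (hIcc t ht)) (hu.axi t (hIcc t ht))).2.2.2 x).2.2.2.2.2.2.2.2.1
    have h2 := hδB t ht (sg x) ⟨hsx, hx.1⟩ hsd
    have h3 := hB t ht x hx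
    have h4 : σ * circ (u t) x ≤ B * sg x := by
      refine (hσa _).trans ?_
      rw [h1, abs_mul, abs_of_pos hsx, mul_comm]
      exact mul_le_mul_of_nonneg_right h3 hsx.le
    rw [hw]
    show σ * circ (u t) x - κ t (sg x) ≤ 0
    linarith
  have hw1 : 0 < w (t₁, x₁) := by
    rw [hw]
    show 0 < σ * circ (u t₁) x₁ - κ t₁ (sg x₁)
    rw [hσc]
    linarith
  obtain ⟨K, hK⟩ : ∃ K : Set (ℝ × V), K = (Icc T₁ t₁ ×ˢ Cy c r h) ∩ {z | δ / 2 ≤ sg z.2} :=
    ⟨_, rfl⟩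
  have hKc : IsCompact K := by
    rw [hK]
    refine (isCompact_Icc.prod (cy_compact c r h hr hh)).inter_right ?_
    exact isClosed_le continuous_const (cont_sg.comp continuous_snd)
  have hwc : ContinuousOn w K := by
    rw [hw]
    have hsub : K ⊆ Ioo 0 T ×ˢ (univ : Set V) := by
      intro z hz
      rw [hK] at hz
      exact ⟨hIcc _ hz.1.1, mem_univ _⟩
    have hi : ∀ i : Fin 3, ContinuousOn (fun z : ℝ × V => u z.1 z.2 i) K :=
      fun i => (((contDiffOn_pi.1 hu.smooth_u) i).continuousOn).mono hsub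
    have h1 : ContinuousOn (fun z : ℝ × V => σ * (z.2 0 * u z.1 z.2 1 - z.2 1 * u z.1 z.2 0)) K := by
      have e0 : ContinuousOn (fun z : ℝ × V => z.2 0) K := by fun_prop
      have e1 : ContinuousOn (fun z : ℝ × V => z.2 1) K := by fun_prop
      exact continuousOn_const.mul ((e0.mul (hi 1)).sub (e1.mul (hi 0)))
    have h2 : ContinuousOn (fun z : ℝ × V => κ z.1 (sg z.2)) K := by
      have e : ContinuousOn (fun z : ℝ × V => ((z.1, sg z.2) : ℝ × ℝ)) K :=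
        (continuous_fst.prodMk (cont_sg.comp continuous_snd)).continuousOn
      refine hκc.comp e ?_
      intro z hz
      rw [hK] at hz
      exact ⟨⟨hz.1.1.1, hz.1.1.2.trans_lt ht₁.2⟩, ⟨(half_pos hδ).trans_le hz.2, hz.1.2.1⟩⟩
    exact h1.sub h2
  have hs₁δ : δ ≤ sg x₁ := by
    by_contra hcon2
    push Not at hcon2
    exact absurd (hnear t₁ ⟨hlt.le, le_rfl⟩ x₁ hx₁ hs₁ hcon2) (not_le.2 hw1)
  have hmem : (t₁, x₁) ∈ K := by
    rw [hK]
    exact ⟨⟨⟨hlt.le, le_rfl⟩, hx₁⟩, (half_le_self hδ.le).trans hs₁δ⟩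
  obtain ⟨⟨t, x⟩, hz, hmax⟩ := hKc.exists_isMaxOn ⟨_, hmem⟩ hwc
  have hzK := hz
  rw [hK] at hz
  obtain ⟨⟨ht, hx⟩, hsx⟩ := hz
  have ht' : t ∈ Icc T₁ t₁ := ht
  have hx' : x ∈ Cy c r h := hx
  have hsx' : δ / 2 ≤ sg x := hsx
  have hsp : 0 < sg x := (half_pos hδ).trans_le hsx'
  have hwp : 0 < w (t, x) := hw1.trans_le (hmax hmem)
  have hwe : w (t, x) = σ * circ (u t) x - κ t (sg x) := by rw [hw]
  have hbig : κ t (sg x) < σ * circ (u t) x := by rw [hwe] at hwp; linarith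
  have hbig2 : κ t (sg x) < |circ (u t) x| := hbig.trans_le (hσa _)
  have hsδ : δ ≤ sg x := by
    by_contra hcon2
    push Not at hcon2
    exact absurd (hnear t ht' x hx' hsp hcon2) (not_le.2 hwp)
  have htT₁ : T₁ < t := by
    rcases ht'.1.lt_or_eq with h1 | h1
    · exact h1
    · exfalso
      have h2 := hini x hx' hsp
      rw [h1] at h2
      exact absurd h2 (not_le.2 hbig2)
  have htT₂ : t < T₂ := ht'.2.trans_lt ht₁.2
  have hxC : x ∈ Co c r h := by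
    constructor
    · show sg x < r ^ 2
      rcases (show sg x ≤ r ^ 2 from hx'.1).lt_or_eq with h1 | h1
      · exact h1
      · exact absurd (hbd t ⟨htT₁.le, htT₂⟩ x hx' hsp (Or.inl h1)) (not_le.2 hbig2)
    · show |x 2 - c| < h
      rcases (show |x 2 - c| ≤ h from hx'.2).lt_or_eq with h1 | h1
      · exact h1
      · exact absurd (hbd t ⟨htT₁.le, htT₂⟩ x hx' hsp (Or.inr h1)) (not_le.2 hbig2)
  have htI : t ∈ Ioo 0 T := hIcc t ht'
  have hxR : x ∈ Co c R H := by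
    refine ⟨?_, ?_⟩
    · have h1 : sg x < r ^ 2 := hxC.1
      show sg x < R ^ 2
      nlinarith
    · have h1 : |x 2 - c| < h := hxC.2
      show |x 2 - c| < H
      linarith
  -- the function of `y`
  have hv := hsl t htI
  have hc := sm_circ hv
  have hsc : ContDiff ℝ ∞ (fun y => σ * circ (u t) y) := contDiff_const.mul hc
  have hsI : sg x ∈ Ioo 0 (r ^ 2) := ⟨hsp, hxC.1⟩
  have hW : ContDiffAt ℝ 2 (fun y => κ t (sg y)) x := by
    have h1 : ContDiffAt ℝ 2 (κ t) (sg x) :=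
      (hκ2 t ⟨htT₁, htT₂⟩).contDiffAt (Ioo_mem_nhds hsI.1 hsI.2)
    exact h1.comp x (sm_sg.contDiffAt.of_le (by norm_cast))
  have hf : ContDiffAt ℝ 2 (fun y => σ * circ (u t) y - κ t (sg y)) x :=
    (hsc.contDiffAt.of_le (by norm_cast)).sub hW
  have hlm : IsLocalMax (fun y => σ * circ (u t) y - κ t (sg y)) x := by
    have e1 : ∀ᶠ y in 𝓝 x, sg y < r ^ 2 :=
      cont_sg.continuousAt.eventually (Iio_mem_nhds hxC.1)
    have e2 : ∀ᶠ y in 𝓝 x, δ / 2 < sg y :=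
      cont_sg.continuousAt.eventually (Ioi_mem_nhds (by linarith))
    have e3 : ∀ᶠ y : V in 𝓝 x, |y 2 - c| < h := by
      have h1 : Continuous fun y : V => |y 2 - c| := by fun_prop
      exact h1.continuousAt.eventually (Iio_mem_nhds hxC.2)
    filter_upwards [e1, e2, e3] with y h1 h2 h3
    have hy : (t, y) ∈ K := by
      rw [hK]
      exact ⟨⟨ht', ⟨h1.le, h3.le⟩⟩, h2.le⟩
    have h4 := hmax hy
    rw [hw] at h4
    exact h4
  have hds := hκd t ⟨htT₁, htT₂⟩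
  have hpW : ∀ j, pd j (fun y => κ t (sg y)) x = cj j x * κs t (sg x) :=
    fun j => pd_comp_sg (hds _ hsI).2.1 j
  have hpW2 : ∀ j, pd j (pd j (fun y => κ t (sg y))) x
      = (if j = 2 then 0 else 2) * κs t (sg x) + cj j x ^ 2 * κss t (sg x) :=
    fun j => pd2_comp_sg hsI (fun s hs => (hds s hs).2.1) (hds _ hsI).2.2 j
  have hpd : ∀ j, σ * pd j (circ (u t)) x = cj j x * κs t (sg x) := by
    intro j
    have h1 := (max_pd hf hlm j).1
    rw [(pd2_sub_at hsc hW j).1, Pool.Agent.TH305.DR.pd_cmul, hpW j] at h1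
    linarith
  have hpd2 : ∀ j, σ * pd j (pd j (circ (u t))) x
      ≤ (if j = 2 then 0 else 2) * κs t (sg x) + cj j x ^ 2 * κss t (sg x) := by
    intro j
    have h1 := (max_pd hf hlm j).2
    rw [(pd2_sub_at hsc hW j).2, Pool.Agent.TH305.DR.pd_cmul, Pool.Agent.TH305.DR.pd_cmul, hpW2 j] at h1
    linarith
  have c0 : cj 0 x = 2 * x 0 := by simp [cj]
  have c1 : cj 1 x = 2 * x 1 := by simp [cj]
  have c2 : cj 2 x = 0 := by simp [cj]
  have p0 := hpd 0
  have p1 := hpd 1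
  have p2 := hpd 2
  rw [c0] at p0
  rw [c1] at p1
  rw [c2, zero_mul] at p2
  have q0 := hpd2 0
  have q1 := hpd2 1
  have q2 := hpd2 2
  rw [c0] at q0
  rw [c1] at q1
  rw [c2] at q2
  simp only [Fin.isValue, Fin.reduceEq, if_false, if_true] at q0 q1 q2
  have hD := hdiff t ⟨htT₁, htT₂⟩ x hxC hsp σ hσ hbig
    (by
      have h1 : σ * (σ * pd 2 (circ (u t)) x) = 0 := by rw [p2, mul_zero]
      rw [← mul_assoc, hσ2, one_mul] at h1
      exact h1)
    (by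
      have h1 : σ * (σ * pd 0 (circ (u t)) x) = σ * (2 * x 0 * κs t (sg x)) := by rw [p0]
      rw [← mul_assoc, hσ2, one_mul] at h1
      exact h1)
    (by
      have h1 : σ * (σ * pd 1 (circ (u t)) x) = σ * (2 * x 1 * κs t (sg x)) := by rw [p1]
      rw [← mul_assoc, hσ2, one_mul] at h1
      exact h1)
  -- the derivative in time
  have hdt : HasDerivAt (fun s => σ * circ (u s) x - κ s (sg x))
      (σ * (lap (circ (u t)) x - 2 / sg x * RR (circ (u t)) x - W221.NS.adv (u t) (circ (u t)) x)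
        - κt t (sg x)) t :=
    ((hE T E c R H u p hu t htI x hxR hsp.ne').const_mul σ).sub (hds _ hsI).1
  have hnn := deriv_nonneg_of_le htT₁ hdt (fun s hs => by
    have hy : (s, x) ∈ K := by
      rw [hK]
      exact ⟨⟨⟨hs.1, hs.2.trans ht'.2⟩, hx'⟩, hsx'⟩
    have h4 := hmax hy
    rw [hw] at h4
    exact h4)
  have hlap : lap (circ (u t)) x = pd 0 (pd 0 (circ (u t))) x + pd 1 (pd 1 (circ (u t))) x
      + pd 2 (pd 2 (circ (u t))) x := by
    unfold lap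
    rw [Fin.sum_univ_three]
  have hadv : W221.NS.adv (u t) (circ (u t)) x = u t x 0 * pd 0 (circ (u t)) x
      + u t x 1 * pd 1 (circ (u t)) x + u t x 2 * pd 2 (circ (u t)) x := by
    unfold W221.NS.adv
    rw [Fin.sum_univ_three]
  have hRR : RR (circ (u t)) x = x 0 * pd 0 (circ (u t)) x + x 1 * pd 1 (circ (u t)) x := rfl
  have hrad : rad (u t) x = x 0 * u t x 0 + x 1 * u t x 1 := rfl
  have hsg : sg x = x 0 ^ 2 + x 1 ^ 2 := rfl
  have hR1 : σ * RR (circ (u t)) x = 2 * sg x * κs t (sg x) := by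
    rw [hRR, mul_add]
    have e1 : σ * (x 0 * pd 0 (circ (u t)) x) = x 0 * (σ * pd 0 (circ (u t)) x) := by ring
    have e2 : σ * (x 1 * pd 1 (circ (u t)) x) = x 1 * (σ * pd 1 (circ (u t)) x) := by ring
    rw [e1, e2, p0, p1]
    have e3 : 2 * sg x * κs t (sg x) = 2 * (x 0 ^ 2 + x 1 ^ 2) * κs t (sg x) := by rw [← hsg]
    rw [e3]
    ring
  have hR2 : σ * (2 / sg x * RR (circ (u t)) x) = 4 * κs t (sg x) := by
    have e1 : σ * (2 / sg x * RR (circ (u t)) x) = 2 / sg x * (σ * RR (circ (u t)) x) := by ring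
    rw [e1, hR1]
    field_simp
    ring
  have hA1 : σ * W221.NS.adv (u t) (circ (u t)) x = 2 * rad (u t) x * κs t (sg x) := by
    rw [hadv, hrad]
    have e1 : σ * (u t x 0 * pd 0 (circ (u t)) x + u t x 1 * pd 1 (circ (u t)) x
        + u t x 2 * pd 2 (circ (u t)) x) = u t x 0 * (σ * pd 0 (circ (u t)) x)
        + u t x 1 * (σ * pd 1 (circ (u t)) x) + u t x 2 * (σ * pd 2 (circ (u t)) x) := by ring
    rw [e1, p0, p1, p2]
    ring
  have hL1 : σ * lap (circ (u t)) x ≤ 4 * κs t (sg x) + 4 * sg x * κss t (sg x) := by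
    rw [hlap]
    have e3 : 4 * sg x * κss t (sg x) = 4 * (x 0 ^ 2 + x 1 ^ 2) * κss t (sg x) := by rw [← hsg]
    rw [e3]
    nlinarith [q0, q1, q2]
  have e : σ * (lap (circ (u t)) x - 2 / sg x * RR (circ (u t)) x
      - W221.NS.adv (u t) (circ (u t)) x) = σ * lap (circ (u t)) x
        - σ * (2 / sg x * RR (circ (u t)) x) - σ * W221.NS.adv (u t) (circ (u t)) x := by ring
  rw [e, hR2, hA1] at hnn
  linarith

end Pool.Agent.Q119.AXI
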