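import Pool.Agent.Q67.AXI.Defs
import Pool.Agent.W583.MD.EN
import Pool.Agent.W333.MD.PCONT

/-!
# Project AXI of helper67: `StmDt`
-/

set_option autoImplicit false

open MeasureTheory Set Metric Filter Topology
open scoped ContDiff ENNReal NNReal
open H459R3.NS Pool.Agent.W268.NS Pool.Agent.Q67.VD Pool.Agent.Q67.AXI
open Pool.Agent.Q85.CC Pool.Agent.Q85.CL Pool.Agent.TH305.AX
open Pool.Agent.W583.MD

namespace Pool.Agent.Q119.AXI

section

variable {α β : ℝ}

/-- spatial derivatives of a slice -/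
theorem pd_slice {F : ℝ → V → ℝ}
    (hF : ContDiffOn ℝ ∞ (fun z : ℝ × V => F z.1 z.2) (Ioo α β ×ˢ univ)) {t : ℝ}
    (ht : t ∈ Ioo α β) (x : V) (i : Fin 3) :
    pd i (F t) x = fderiv ℝ (fun z : ℝ × V => F z.1 z.2) (t, x) (0, Pi.single i 1) := by
  have hmem : Ioo α β ×ˢ (univ : Set V) ∈ 𝓝 (t, x) :=
    prod_mem_nhds (Ioo_mem_nhds ht.1 ht.2) Filter.univ_mem
  have h1 : DifferentiableAt ℝ (fun z : ℝ × V => F z.1 z.2) (t, x) :=
    (hF.contDiffAt hmem).differentiableAt (by norm_cast)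
  have h2 : HasFDerivAt (fun y : V => ((t, y) : ℝ × V)) (ContinuousLinearMap.inr ℝ ℝ V) x :=
    hasFDerivAt_prodMk_right t x
  have h3 : HasFDerivAt (F t)
      ((fderiv ℝ (fun z : ℝ × V => F z.1 z.2) (t, x)).comp (ContinuousLinearMap.inr ℝ ℝ V)) x :=
    h1.hasFDerivAt.comp x h2
  unfold pd
  rw [h3.fderiv]
  simp

theorem cont_pd {F : ℝ → V → ℝ}
    (hF : ContDiffOn ℝ ∞ (fun z : ℝ × V => F z.1 z.2) (Ioo α β ×ˢ univ)) (i : Fin 3) :
    ContinuousOn (fun z : ℝ × V => pd i (F z.1) z.2) (Ioo α β ×ˢ univ) := by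
  have h : ContinuousOn (fun z : ℝ × V =>
      fderiv ℝ (fun z : ℝ × V => F z.1 z.2) z (0, Pi.single i 1)) (Ioo α β ×ˢ univ) :=
    (hF.continuousOn_fderiv_of_isOpen (isOpen_Ioo.prod isOpen_univ) (by norm_cast)).clm_apply
      continuousOn_const
  refine h.congr fun z hz => ?_
  exact pd_slice hF hz.1 z.2 i

theorem dt_zero' {F : ℝ → V → ℝ} {ρ : ℝ} (hs : ∀ t ∈ Ioo α β, ∀ z ∉ closedBall (0 : V) ρ, F t z = 0)
    {t : ℝ} (ht : t ∈ Ioo α β) {z : V} (hz : z ∉ closedBall (0 : V) ρ) :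
    deriv (fun s => F s z) t = 0 := by
  have h1 : (fun s => F s z) =ᶠ[𝓝 t] fun _ => 0 := by
    filter_upwards [Ioo_mem_nhds ht.1 ht.2] with s hs'
    exact hs s hs' z hz
  rw [h1.deriv_eq]
  exact deriv_const t 0

/-- derivative under the integral sign -/
theorem hd_int' {F : ℝ → V → ℝ} {ρ : ℝ}
    (hF : ContDiffOn ℝ ∞ (fun z : ℝ × V => F z.1 z.2) (Ioo α β ×ˢ univ))
    (hs : ∀ t ∈ Ioo α β, ∀ z ∉ closedBall (0 : V) ρ, F t z = 0) {t : ℝ} (ht : t ∈ Ioo α β) :
    HasDerivAt (fun s => ∫ x, F s x) (∫ x, deriv (fun s => F s x) t) t := by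
  obtain ⟨a, ha1, ha2⟩ := exists_between ht.1
  obtain ⟨b, hb1, hb2⟩ := exists_between ht.2
  have hK : IsCompact (Icc a b ×ˢ closedBall (0 : V) ρ) :=
    isCompact_Icc.prod (isCompact_closedBall 0 ρ)
  have hsub' : ∀ s ∈ Icc a b, s ∈ Ioo α β := fun s hs => ⟨ha1.trans_le hs.1, hs.2.trans_lt hb2⟩
  have hsub : Icc a b ×ˢ closedBall (0 : V) ρ ⊆ Ioo α β ×ˢ (univ : Set V) :=
    prod_mono hsub' (subset_univ _)
  obtain ⟨C, hC⟩ := hK.exists_bound_of_continuousOn ((cont_dt hF).mono hsub)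
  have hnh : Icc a b ∈ 𝓝 t := Icc_mem_nhds ha2 hb1
  have hcs : HasCompactSupport (F t) :=
    HasCompactSupport.of_support_subset_isCompact (isCompact_closedBall (0 : V) ρ) fun z hz => by
      by_contra hcon
      exact hz (hs t ht z hcon)
  refine (hasDerivAt_integral_of_dominated_loc_of_deriv_le (s := Icc a b)
    (F := fun s x => F s x) (F' := fun s x => deriv (fun s => F s x) s)
    (bound := (closedBall (0 : V) ρ).indicator fun _ => C) (μ := volume) hnh ?_ ?_ ?_ ?_ ?_ ?_).2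
  · filter_upwards [Ioo_mem_nhds ht.1 ht.2] with s hs
    exact (slice hF hs).continuous.aestronglyMeasurable
  · exact int_cs (slice hF ht).continuous hcs
  · exact (cont_dt_slice hF ht).aestronglyMeasurable
  · refine Filter.Eventually.of_forall fun x s hs' => ?_
    by_cases hx : x ∈ closedBall (0 : V) ρ
    · rw [indicator_of_mem hx, (hd_slice hF (hsub' s hs') x).deriv]
      exact hC (s, x) ⟨hs', hx⟩
    · rw [indicator_of_notMem hx]
      change ‖deriv (fun s => F s x) s‖ ≤ 0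
      rw [dt_zero' hs (hsub' s hs') hx, norm_zero]
  · exact (integrable_indicator_iff measurableSet_closedBall).2
      (integrableOn_const (measure_closedBall_lt_top.ne))
  · refine Filter.Eventually.of_forall fun x s hs' => ?_
    have h := hd_slice hF (hsub' s hs') x
    rw [← h.deriv] at h
    exact h

end

theorem stmDt : StmDt := by
  intro T f φ hf hφ hcs
  obtain ⟨ρ, hρ⟩ := hcs.isCompact.isBounded.subset_closedBall (0 : V)
  have hφ0 : ∀ z ∉ closedBall (0 : V) ρ, φ z = 0 := fun z hz =>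
    image_eq_zero_of_notMem_tsupport fun h => hz (hρ h)
  have hpφ0 : ∀ z ∉ closedBall (0 : V) ρ, ∀ i, pd i φ z = 0 := by
    intro z hz i
    have h1 : z ∉ tsupport φ := fun h => hz (hρ h)
    have h2 : fderiv ℝ φ z = 0 := by
      by_contra hne
      exact h1 (support_fderiv_subset ℝ hne)
    unfold pd
    rw [h2]
    rfl
  have hρ1 : closedBall (0 : V) ρ ⊆ ball 0 (ρ + 1) := closedBall_subset_ball (by linarith)
  constructor
  · -- continuity
    have key : ContinuousOn (fun z : ℝ × V => gr2 (fun x => φ x * f z.1 x) z.2)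
        (Ioo 0 T ×ˢ univ) := by
      have h1 : ContinuousOn (fun z : ℝ × V =>
          ∑ i, (φ z.2 * pd i (f z.1) z.2 + pd i φ z.2 * f z.1 z.2) ^ 2) (Ioo 0 T ×ˢ univ) := by
        apply continuousOn_finsetSum
        intro i _
        apply ContinuousOn.pow
        apply ContinuousOn.add
        · exact ((hφ.continuous.comp continuous_snd).continuousOn).mul (cont_pd hf i)
        · exact (((sm_pd hφ i).continuous.comp continuous_snd).continuousOn).mul hf.continuousOn
      refine h1.congr fun z hz => ?_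
      unfold gr2
      refine Finset.sum_congr rfl fun i _ => ?_
      rw [pd_mul' hφ (slice hf hz.1)]
    have h2 := Pool.Agent.W333.MD.t_PCONT 0 T (fun t x => gr2 (fun x => φ x * f t x) x) 0 (ρ + 1)
      key
    refine h2.congr fun t ht => ?_
    unfold GD
    refine (setIntegral_eq_integral_of_forall_compl_eq_zero fun x hx => ?_).symm
    have hx' : x ∉ closedBall (0 : V) ρ := fun h => hx (hρ1 h)
    unfold gr2
    refine Finset.sum_eq_zero fun i _ => ?_
    rw [pd_mul' hφ (slice hf ht), hφ0 x hx', hpφ0 x hx' i]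
    ring
  · intro t ht
    have hF : ContDiffOn ℝ ∞ (fun z : ℝ × V => φ z.2 ^ 2 * f z.1 z.2 ^ 2) (Ioo 0 T ×ˢ univ) :=
      (((hφ.comp contDiff_snd).pow 2).contDiffOn).mul (hf.pow 2)
    have h1 := hd_int' (F := fun t x => φ x ^ 2 * f t x ^ 2) (ρ := ρ) hF
      (fun s _ z hz => by rw [hφ0 z hz]; ring) ht
    have e : (fun x => deriv (fun s => φ x ^ 2 * f s x ^ 2) t) =
        fun x => 2 * φ x ^ 2 * f t x * deriv (fun s => f s x) t := by
      funext x
      have h2 := hd_slice hf ht x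
      have h3 := (h2.pow 2).const_mul (φ x ^ 2)
      have h4 : (fun s => φ x ^ 2 * f s x ^ 2) = fun s => φ x ^ 2 * ((fun s => f s x) ^ 2) s := rfl
      rw [h4, h3.deriv, h2.deriv]
      push_cast
      ring
    rw [e] at h1
    exact h1

end Pool.Agent.Q119.AXI
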