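import Pool.Agent.Q119.AXI.SobA

/-!
# Project AXI of helper67: the Sobolev inequalities for functions supported in a cube, part B
-/

set_option autoImplicit false

open MeasureTheory Set Metric Filter Topology
open scoped ContDiff ENNReal NNReal
open H459R3.NS

namespace Pool.Agent.Q119.AXI

/-- integration along a segment -/
lemma ray {F : V → ℝ} (hF : ContDiff ℝ 1 F) (x y : V) (hy : F y = 0) :
    ‖F x‖ₑ ≤ ‖y - x‖ₑ * ∫⁻ t in Ioc (0 : ℝ) 1, ‖fderiv ℝ F (x + t • (y - x))‖ₑ := by
  have hd : ∀ t : ℝ, HasDerivAt (fun t : ℝ => F (x + t • (y - x)))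
      (fderiv ℝ F (x + t • (y - x)) (y - x)) t := by
    intro t
    have h1 : HasDerivAt (fun t : ℝ => x + t • (y - x)) (y - x) t := by
      have := ((hasDerivAt_id t).smul_const (y - x)).const_add x
      simpa using this
    exact ((hF.differentiable one_ne_zero _).hasFDerivAt).comp_hasDerivAt t h1
  have hc : Continuous (fun t : ℝ => fderiv ℝ F (x + t • (y - x)) (y - x)) :=
    ((hF.continuous_fderiv one_ne_zero).comp (by fun_prop)).clm_apply continuous_const
  have h2 := intervalIntegral.integral_eq_sub_of_hasDerivAt (a := 0) (b := 1)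
    (fun t _ => hd t) (hc.intervalIntegrable 0 1)
  simp only [one_smul, zero_smul, add_zero, add_sub_cancel, hy, zero_sub] at h2
  rw [intervalIntegral.integral_of_le zero_le_one] at h2
  have h3 : ‖F x‖ₑ = ‖∫ t in Ioc (0 : ℝ) 1, fderiv ℝ F (x + t • (y - x)) (y - x)‖ₑ := by
    rw [h2, enorm_neg]
  rw [h3]
  refine (enorm_integral_le_lintegral_enorm _).trans ?_
  rw [← lintegral_const_mul' _ _ enorm_ne_top]
  refine lintegral_mono fun t => ?_
  rw [mul_comm]
  exact ContinuousLinearMap.le_opENorm _ _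

/-- scaling of the `L⁶` norm -/
lemma scale6 {g : V → ℝ} (hg : Continuous g) (x : V) (t : ℝ) (ht : 0 < t) :
    eLpNorm (fun y => g (x + t • (y - x))) 6 volume =
      ENNReal.ofReal (t ^ (-(1 / 2) : ℝ)) * eLpNorm g 6 volume := by
  have e1 : (fun y => g (x + t • (y - x))) = (fun z => g (z + (x - t • x))) ∘ fun y => t • y := by
    funext y
    simp only [Function.comp]
    congr 1
    rw [smul_sub]
    abel
  have hg2 : Continuous (fun z => g (z + (x - t • x))) := hg.comp (by fun_prop)
  rw [e1, ← eLpNorm_map_measure hg2.aestronglyMeasurable (by fun_prop),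
    Measure.map_addHaar_smul _ ht.ne', eLpNorm_smul_measure_of_ne_top (by norm_num)]
  have e2 : (fun z => g (z + (x - t • x))) = g ∘ fun z => z + (x - t • x) := rfl
  rw [e2, eLpNorm_comp_measurePreserving hg.aestronglyMeasurable
    (measurePreserving_add_right (volume : Measure V) _), smul_eq_mul]
  congr 1
  rw [abs_of_pos (by positivity), ENNReal.ofReal_rpow_of_nonneg (by positivity) (by positivity)]
  congr 1
  simp only [Module.finrank_fintype_fun_eq_card, Fintype.card_fin, one_div, ENNReal.toReal_inv,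
    ENNReal.toReal_ofNat]
  rw [← Real.rpow_natCast, ← Real.rpow_neg ht.le, ← Real.rpow_mul ht.le]
  norm_num

/-- average over a ball -/
lemma avg6 {g : V → ℝ} (hg : Continuous g) (x b : V) (t : ℝ) (ht : 0 < t) :
    ∫⁻ y in ball b 1, ‖g (x + t • (y - x))‖ₑ ≤
      ENNReal.ofReal (t ^ (-(1 / 2) : ℝ)) * (eLpNorm g 6 volume * 8) := by
  have hg2 : Continuous (fun y => g (x + t • (y - x))) := hg.comp (by fun_prop)
  have h1 := eLpNorm_le_eLpNorm_mul_rpow_measure_univ (p := 1) (q := 6)
    (μ := (volume : Measure V).restrict (ball b 1)) (by norm_num)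
    hg2.aestronglyMeasurable
  rw [eLpNorm_one_eq_lintegral_enorm, Measure.restrict_apply_univ, vol_ball] at h1
  refine h1.trans ?_
  rw [← mul_assoc, ← scale6 hg x t ht]
  gcongr
  · exact Measure.restrict_le_self
  · simp only [ENNReal.toReal_one, ENNReal.toReal_ofNat]
    calc (8 : ℝ≥0∞) ^ ((1 : ℝ) / 1 - 1 / 6) ≤ 8 ^ (1 : ℝ) :=
          ENNReal.rpow_le_rpow_of_exponent_le (by norm_num) (by norm_num)
      _ = 8 := by rw [ENNReal.rpow_one]

lemma int_half : ∫⁻ t in Ioc (0 : ℝ) 1, ENNReal.ofReal (t ^ (-(1 / 2) : ℝ)) = 2 := by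
  have hi : IntervalIntegrable (fun t : ℝ => t ^ (-(1 / 2) : ℝ)) volume 0 1 :=
    intervalIntegral.intervalIntegrable_rpow' (by norm_num)
  rw [intervalIntegrable_iff_integrableOn_Ioc_of_le zero_le_one] at hi
  rw [← ofReal_integral_eq_lintegral_ofReal hi
    (by
      filter_upwards [self_mem_ae_restrict measurableSet_Ioc] with t ht
      exact Real.rpow_nonneg ht.1.le _),
    ← intervalIntegral.integral_of_le zero_le_one, integral_rpow (Or.inl (by norm_num))]
  norm_num

/-- the supremum is controlled by the `L⁶` norm of the derivative -/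
lemma sup6 {F : V → ℝ} (hF : ContDiff ℝ 1 F) (a : V) (hsu : ∀ x, F x ≠ 0 → ‖x - a‖ ≤ 1) (x : V) :
    ‖F x‖ₑ ≤ 10 * eLpNorm (fderiv ℝ F) 6 volume := by
  by_cases hx : F x = 0
  · rw [hx]; simp
  set b : V := a + Pi.single 0 3 with hb
  set g : V → ℝ := fun z => ‖fderiv ℝ F z‖ with hg
  have hgc : Continuous g := (hF.continuous_fderiv one_ne_zero).norm
  have hxa := hsu x hx
  have hY : ∀ y ∈ ball b 1, F y = 0 ∧ ‖y - x‖ ≤ 5 := by
    intro y hy
    rw [mem_ball, dist_eq_norm] at hy
    constructor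
    · by_contra hne
      have h1 := hsu y hne
      have h2 : |(y - b) 0| < 1 := lt_of_le_of_lt (norm_le_pi_norm (y - b) 0) hy
      have h3 : |(y - a) 0| ≤ 1 := (norm_le_pi_norm (y - a) 0).trans h1
      rw [abs_lt] at h2
      rw [abs_le] at h3
      simp only [hb, Pi.sub_apply, Pi.add_apply, Pi.single_eq_same] at h2 h3
      linarith
    · have e : y - x = (y - b) + Pi.single 0 3 - (x - a) := by rw [hb]; abel
      rw [e]
      refine (norm_sub_le _ _).trans ?_
      have h4 : ‖(y - b) + Pi.single 0 3‖ ≤ 1 + 3 := by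
        refine (norm_add_le _ _).trans (add_le_add hy.le ?_)
        rw [Pi.norm_single]
        norm_num
      linarith
  have h8 : 8 * ‖F x‖ₑ ≤ 8 * (10 * eLpNorm (fderiv ℝ F) 6 volume) := by
    calc 8 * ‖F x‖ₑ = ∫⁻ y in ball b 1, ‖F x‖ₑ := by
          rw [setLIntegral_const, vol_ball, mul_comm]
      _ ≤ ∫⁻ y in ball b 1, 5 * ∫⁻ t in Ioc (0 : ℝ) 1, ‖g (x + t • (y - x))‖ₑ := by
          refine setLIntegral_mono' measurableSet_ball fun y hy => ?_
          obtain ⟨h1, h2⟩ := hY y hy
          refine (ray hF x y h1).trans ?_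
          gcongr
          · rw [← ofReal_norm]
            calc ENNReal.ofReal ‖y - x‖ ≤ ENNReal.ofReal 5 := ENNReal.ofReal_le_ofReal h2
              _ = 5 := by norm_num
          · simp only [hg]
            rw [enorm_norm]
      _ = 5 * ∫⁻ y in ball b 1, ∫⁻ t in Ioc (0 : ℝ) 1, ‖g (x + t • (y - x))‖ₑ := by
          rw [lintegral_const_mul' _ _ (by norm_num)]
      _ = 5 * ∫⁻ t in Ioc (0 : ℝ) 1, ∫⁻ y in ball b 1, ‖g (x + t • (y - x))‖ₑ := by
          rw [lintegral_lintegral_swap]
          have : Continuous (Function.uncurry fun (y : V) (t : ℝ) => ‖g (x + t • (y - x))‖ₑ) :=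
            (hgc.comp (by fun_prop)).enorm
          exact this.measurable.aemeasurable
      _ ≤ 5 * ∫⁻ t in Ioc (0 : ℝ) 1,
            ENNReal.ofReal (t ^ (-(1 / 2) : ℝ)) * (eLpNorm g 6 volume * 8) := by
          refine mul_le_mul' le_rfl ?_
          refine setLIntegral_mono' measurableSet_Ioc fun t ht => ?_
          exact avg6 hgc x b t ht.1
      _ = 5 * ((∫⁻ t in Ioc (0 : ℝ) 1, ENNReal.ofReal (t ^ (-(1 / 2) : ℝ))) *
            (eLpNorm g 6 volume * 8)) := by
          have hm : Measurable fun t : ℝ => ENNReal.ofReal (t ^ (-(1 / 2) : ℝ)) :=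
            (measurable_id.pow_const _).ennreal_ofReal
          rw [lintegral_mul_const _ hm]
      _ = 8 * (10 * eLpNorm (fderiv ℝ F) 6 volume) := by
          rw [int_half, hg, eLpNorm_norm]
          ring
  have := (ENNReal.mul_le_mul_iff_right (a := 8) (by norm_num) (by norm_num)).mp h8
  exact this

end Pool.Agent.Q119.AXI
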