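import Pool.Agent.Q67.AXI.Defs
import Pool.Agent.Q119.AXI.SobB

/-!
# Project AXI of helper67: the Sobolev inequalities `StmSob`
-/

set_option autoImplicit false

open MeasureTheory Set Metric Filter Topology
open scoped ContDiff ENNReal NNReal
open H459R3.NS Pool.Agent.Q67.AXI

namespace Pool.Agent.Q119.AXI

lemma pd_smooth {u : V → ℝ} (hu : ContDiff ℝ ∞ u) (j : Fin 3) : ContDiff ℝ ∞ (pd j u) := by
  unfold pd
  exact (hu.fderiv_right (m := ∞) le_rfl).clm_apply contDiff_const

theorem stmSob : StmSob := by
  obtain ⟨C1, hC1, h1⟩ := poinc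
  obtain ⟨C2, hC2, h2⟩ := sob6'
  refine ⟨(30 * C2) ^ 2 + C1 + 1, by positivity, fun F a hF hs => ?_⟩
  have hF1 : ContDiff ℝ 1 F := hF.of_le (by norm_num)
  have hG0 : 0 ≤ GD F := integral_nonneg fun x => Finset.sum_nonneg fun i _ => sq_nonneg _
  have hH0 : 0 ≤ HD F := integral_nonneg fun x =>
    Finset.sum_nonneg fun i _ => Finset.sum_nonneg fun j _ => sq_nonneg _
  constructor
  · intro x
    have hsupp : Function.support F ⊆ closedBall a 1 := by
      intro x hx
      rw [mem_closedBall, dist_eq_norm]
      exact hs x hx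
    have hcs : HasCompactSupport F := HasCompactSupport.of_support_subset_isCompact
      (isCompact_closedBall a 1) hsupp
    have hcs2 : ∀ i j, HasCompactSupport (pd i (pd j F)) := fun i j =>
      pd_compact (pd_compact hcs j) i
    have hc2 : ∀ i j, Continuous (pd i (pd j F)) := fun i j =>
      pd_continuous ((pd_smooth hF j).of_le (by norm_num)) i
    have hint : ∀ i j, Integrable (fun x => pd i (pd j F) x ^ 2) := fun i j =>
      (((hc2 i j).pow 2 : Continuous fun x => pd i (pd j F) x ^ 2)).integrable_of_hasCompactSupport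
        ((hcs2 i j).comp_left (g := fun y : ℝ => y ^ 2) (by simp) :
          HasCompactSupport fun x => pd i (pd j F) x ^ 2)
    have e1 : ∀ j, eLpNorm (pd j F) 6 volume ≤ ENNReal.ofReal (C2 * √(HD F)) := by
      intro j
      refine (h2 (pd j F) ((pd_smooth hF j).of_le (by norm_num)) (pd_compact hcs j)).trans ?_
      apply ENNReal.ofReal_le_ofReal
      refine mul_le_mul_of_nonneg_left (Real.sqrt_le_sqrt ?_) hC2
      unfold HD hs2
      apply integral_mono
      · exact integrable_finsetSum _ fun i _ => hint i j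
      · exact integrable_finsetSum _ fun i _ => integrable_finsetSum _ fun k _ => hint i k
      · intro y
        apply Finset.sum_le_sum
        intro i _
        exact Finset.single_le_sum (f := fun j => pd i (pd j F) y ^ 2) (fun k _ => sq_nonneg _)
          (Finset.mem_univ j)
    have e2 : ‖F x‖ₑ ≤ ENNReal.ofReal (30 * C2 * √(HD F)) := by
      calc ‖F x‖ₑ ≤ 10 * eLpNorm (fderiv ℝ F) 6 volume := sup6 hF1 a hs x
        _ ≤ 10 * ∑ j : Fin 3, eLpNorm (pd j F) 6 volume := by
            gcongr
            exact fderiv_eLp hF1 6 (by norm_num)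
        _ ≤ 10 * ∑ j : Fin 3, ENNReal.ofReal (C2 * √(HD F)) := by
            gcongr with j
            exact e1 j
        _ = ENNReal.ofReal (30 * C2 * √(HD F)) := by
            rw [Finset.sum_const, Finset.card_univ, Fintype.card_fin, nsmul_eq_mul, ← mul_assoc,
              mul_assoc 30, ENNReal.ofReal_mul (p := 30) (by norm_num)]
            congr 1
            norm_num
    rw [← ofReal_norm, ENNReal.ofReal_le_ofReal_iff (by positivity), Real.norm_eq_abs] at e2
    calc F x ^ 2 = |F x| ^ 2 := (sq_abs _).symm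
      _ ≤ (30 * C2 * √(HD F)) ^ 2 := by gcongr
      _ = (30 * C2) ^ 2 * √(HD F) ^ 2 := by ring
      _ = (30 * C2) ^ 2 * HD F := by rw [Real.sq_sqrt hH0]
      _ ≤ ((30 * C2) ^ 2 + C1 + 1) * HD F := by nlinarith
  · have h3 := h1 F a hF1 hs
    have h4 : (∫ x, ∑ j, pd j F x ^ 2) = GD F := rfl
    rw [h4] at h3
    have : 0 ≤ (30 * C2) ^ 2 * GD F := by positivity
    nlinarith

end Pool.Agent.Q119.AXI
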