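import Pool.Agent.H459R3.NS.Defs

/-!
# Project AXI of helper67: the Sobolev inequalities for functions supported in a cube, part A
-/

set_option autoImplicit false

open MeasureTheory Set Metric Filter Topology
open scoped ContDiff ENNReal NNReal
open H459R3.NS

namespace Pool.Agent.Q119.AXI

/-- the norm of the derivative is at most the sum of the partial derivatives -/
lemma fderiv_norm_le' {f : V → ℝ} (x : V) : ‖fderiv ℝ f x‖ ≤ ∑ j, |pd j f x| := by
  refine ContinuousLinearMap.opNorm_le_bound _ (Finset.sum_nonneg fun _ _ => abs_nonneg _)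
    fun v => ?_
  have e : fderiv ℝ f x v = ∑ j, v j * pd j f x := by
    conv_lhs => rw [← Finset.univ_sum_single v]
    rw [map_sum]
    refine Finset.sum_congr rfl fun j _ => ?_
    have : (Pi.single j (v j) : V) = v j • Pi.single j 1 := by
      rw [← Pi.single_smul]; simp
    rw [this, map_smul]
    rfl
  rw [e, Real.norm_eq_abs, Finset.sum_mul]
  refine (Finset.abs_sum_le_sum_abs _ _).trans (Finset.sum_le_sum fun j _ => ?_)
  rw [abs_mul, mul_comm]
  refine mul_le_mul_of_nonneg_left ?_ (abs_nonneg _)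
  rw [← Real.norm_eq_abs]
  exact norm_le_pi_norm v j

/-- the Sobolev inequality -/
lemma sob6 : ∃ C : ℝ≥0, ∀ u : V → ℝ, ContDiff ℝ 1 u → HasCompactSupport u →
    eLpNorm u 6 volume ≤ C * eLpNorm (fderiv ℝ u) 2 volume := by
  refine ⟨eLpNormLESNormFDerivOfEqInnerConst (volume : Measure V) 2, fun u hu h2 => ?_⟩
  have h := eLpNorm_le_eLpNorm_fderiv_of_eq_inner (μ := (volume : Measure V)) hu h2 (p := 2)
    (p' := 6) (by norm_num) (by simp) (by simp; norm_num)
  exact_mod_cast h

lemma pd_continuous {u : V → ℝ} (hu : ContDiff ℝ 1 u) (j : Fin 3) : Continuous (pd j u) := by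
  unfold pd
  exact (hu.continuous_fderiv one_ne_zero).clm_apply continuous_const

lemma pd_compact {u : V → ℝ} (hu : HasCompactSupport u) (j : Fin 3) :
    HasCompactSupport (pd j u) := by
  have h1 := hu.fderiv (𝕜 := ℝ)
  refine h1.mono ?_
  intro x hx
  rw [Function.mem_support] at hx ⊢
  intro h
  apply hx
  unfold pd
  rw [h]
  rfl

/-- the `L²` norm -/
lemma l2 {h : V → ℝ} (hc : Continuous h) (hs : HasCompactSupport h) :
    eLpNorm h 2 volume = ENNReal.ofReal (√(∫ x, h x ^ 2)) := by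
  rw [(hc.memLp_of_hasCompactSupport hs).eLpNorm_eq_integral_rpow_norm (by norm_num) (by norm_num)]
  congr 1
  rw [Real.sqrt_eq_rpow]
  simp only [ENNReal.toReal_ofNat, Real.norm_eq_abs]
  congr 1
  · congr 1
    funext x
    rw [← sq_abs (h x)]
    exact Real.rpow_natCast _ 2
  · norm_num

/-- the norm of the derivative in `L^p` -/
lemma fderiv_eLp {u : V → ℝ} (hu : ContDiff ℝ 1 u) (p : ℝ≥0∞) (hp : 1 ≤ p) :
    eLpNorm (fderiv ℝ u) p volume ≤ ∑ j, eLpNorm (pd j u) p volume := by
  have h1 : eLpNorm (fderiv ℝ u) p volume ≤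
      eLpNorm (∑ j : Fin 3, fun x => |pd j u x|) p volume := by
    apply eLpNorm_mono
    intro x
    refine (fderiv_norm_le' x).trans ?_
    rw [Finset.sum_apply, Real.norm_eq_abs]
    exact le_abs_self _
  refine h1.trans ((eLpNorm_sum_le (fun j _ => ?_) hp).trans (Finset.sum_le_sum fun j _ => ?_))
  · exact (pd_continuous hu j).abs.aestronglyMeasurable
  · apply eLpNorm_mono
    intro x
    simp

/-- first derivatives control the function: real form of `sob6` -/
lemma sob6' : ∃ C : ℝ, 0 ≤ C ∧ ∀ u : V → ℝ, ContDiff ℝ 1 u → HasCompactSupport u →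
    eLpNorm u 6 volume ≤ ENNReal.ofReal (C * √(∫ x, ∑ j, pd j u x ^ 2)) := by
  obtain ⟨C, hC⟩ := sob6
  refine ⟨C * 3, by positivity, fun u hu hs => ?_⟩
  have hint : ∀ j, Integrable (fun x => pd j u x ^ 2) := fun j =>
    (((pd_continuous hu j).pow 2 : Continuous fun x => pd j u x ^ 2)).integrable_of_hasCompactSupport
      ((pd_compact hs j).comp_left (g := fun y : ℝ => y ^ 2) (by simp) :
        HasCompactSupport fun x => pd j u x ^ 2)
  have h1 : ∀ j, eLpNorm (pd j u) 2 volume ≤ ENNReal.ofReal (√(∫ x, ∑ j, pd j u x ^ 2)) := by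
    intro j
    rw [l2 (pd_continuous hu j) (pd_compact hs j)]
    apply ENNReal.ofReal_le_ofReal
    apply Real.sqrt_le_sqrt
    apply integral_mono (hint j) (integrable_finsetSum _ fun i _ => hint i)
    intro x
    exact Finset.single_le_sum (f := fun j => pd j u x ^ 2) (fun i _ => sq_nonneg _)
      (Finset.mem_univ j)
  calc eLpNorm u 6 volume ≤ C * eLpNorm (fderiv ℝ u) 2 volume := hC u hu hs
    _ ≤ C * ∑ j : Fin 3, eLpNorm (pd j u) 2 volume := by
        gcongr
        exact fderiv_eLp hu 2 (by norm_num)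
    _ ≤ C * ∑ j : Fin 3, ENNReal.ofReal (√(∫ x, ∑ j, pd j u x ^ 2)) := by
        gcongr with j
        exact h1 j
    _ = ENNReal.ofReal (C * 3 * √(∫ x, ∑ j, pd j u x ^ 2)) := by
        rw [Finset.sum_const, Finset.card_univ, Fintype.card_fin, nsmul_eq_mul, mul_assoc,
          ENNReal.ofReal_mul (by positivity), ENNReal.ofReal_mul (by positivity)]
        congr 1
        · exact (ENNReal.ofReal_coe_nnreal).symm
        · congr 1
          norm_num

/-- the volume of a ball with radius one -/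
lemma vol_closedBall (a : V) : volume (closedBall a 1) = 8 := by
  rw [Real.volume_pi_closedBall _ (by norm_num)]
  norm_num

lemma vol_ball (a : V) : volume (ball a 1) = 8 := by
  rw [Real.volume_pi_ball _ (by norm_num)]
  norm_num

/-- Poincaré inequality -/
lemma poinc : ∃ C : ℝ, 0 ≤ C ∧ ∀ (u : V → ℝ) (a : V), ContDiff ℝ 1 u →
    (∀ x, u x ≠ 0 → ‖x - a‖ ≤ 1) → ∫ x, u x ^ 2 ≤ C * ∫ x, ∑ j, pd j u x ^ 2 := by
  obtain ⟨C, hC0, hC⟩ := sob6'
  set D : ℝ := (8 : ℝ) ^ ((1 : ℝ) / 2 - 1 / 6) with hD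
  refine ⟨(C * D) ^ 2, by positivity, fun u a hu hsu => ?_⟩
  have hsupp : Function.support u ⊆ closedBall a 1 := by
    intro x hx
    rw [mem_closedBall, dist_eq_norm]
    exact hsu x hx
  have hs : HasCompactSupport u := HasCompactSupport.of_support_subset_isCompact
    (isCompact_closedBall a 1) hsupp
  have h1 : eLpNorm u 2 volume ≤ eLpNorm u 6 volume * ENNReal.ofReal D := by
    rw [← eLpNorm_restrict_eq_of_support_subset hsupp,
      ← eLpNorm_restrict_eq_of_support_subset (p := 6) hsupp]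
    refine (eLpNorm_le_eLpNorm_mul_rpow_measure_univ (p := 2) (q := 6)
      (by norm_num) hu.continuous.aestronglyMeasurable).trans ?_
    gcongr
    rw [Measure.restrict_apply_univ, vol_closedBall]
    simp only [ENNReal.toReal_ofNat]
    rw [hD, ← ENNReal.ofReal_rpow_of_pos (by norm_num)]
    norm_num
  have h2 := h1.trans (mul_le_mul_left (hC u hu hs) _)
  rw [l2 hu.continuous hs, ← ENNReal.ofReal_mul (by positivity)] at h2
  rw [ENNReal.ofReal_le_ofReal_iff (by positivity)] at h2
  have h3 : (0 : ℝ) ≤ ∫ x, u x ^ 2 := integral_nonneg fun x => sq_nonneg _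
  have h4 : (0 : ℝ) ≤ ∫ x, ∑ j, pd j u x ^ 2 :=
    integral_nonneg fun x => Finset.sum_nonneg fun j _ => sq_nonneg _
  calc ∫ x, u x ^ 2 = √(∫ x, u x ^ 2) ^ 2 := (Real.sq_sqrt h3).symm
    _ ≤ (C * √(∫ x, ∑ j, pd j u x ^ 2) * D) ^ 2 := by gcongr
    _ = (C * D) ^ 2 * √(∫ x, ∑ j, pd j u x ^ 2) ^ 2 := by ring
    _ = _ := by rw [Real.sq_sqrt h4]

end Pool.Agent.Q119.AXI
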