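import Pool.Agent.Q67.AXI.Defs

/-!
# Project AXI of helper67: `StmWho`
-/

set_option autoImplicit false

open MeasureTheory Set Metric Filter Topology
open scoped ContDiff ENNReal NNReal
open H459R3.NS Pool.Agent.W268.NS Pool.Agent.Q67.VD Pool.Agent.Q67.AXI
open Pool.Agent.Q85.CC Pool.Agent.Q85.CL Pool.Agent.TH305.AX

namespace Pool.Agent.Q119.AXI

theorem stmWho : StmWho := by
  intro ν T E u p hν hT h R
  have hsub : (Ioo 0 T ×ˢ ball (0 : V) R : Set (ℝ × V)) ⊆ Ioo 0 T ×ˢ univ :=
    prod_mono le_rfl (subset_univ _)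
  refine ⟨isOpen_ball, h.smooth_u.mono hsub, h.smooth_p.mono hsub,
    fun t ht x _ => h.divfree t ht x, fun t ht x _ i => h.momentum t ht x i,
    fun t ht => (h.en_int t ht).integrableOn, fun t ht => ?_, h.dis.mono_set hsub, h.prs R⟩
  refine (setIntegral_le_integral (h.en_int t ht) (Eventually.of_forall fun x => ?_)).trans
    (h.en t ht)
  unfold W221.NS.nsq
  exact Finset.sum_nonneg fun i _ => sq_nonneg _

end Pool.Agent.Q119.AXI
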